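import Mathlib

set_option autoImplicit false

namespace Pool.Agent.Results.MP_029391_gt.Triple

/-- correspondences -/
def IsCorr {X Y : Type} (S : Set (X × Y)) : Prop := (∀ x, ∃ y, (x, y) ∈ S) ∧ ∀ y, ∃ x, (x, y) ∈ S

/-- distortion -/
noncomputable def dis {X Y : Type} [MetricSpace X] [MetricSpace Y] (S : Set (X × Y)) : ℝ :=
  sSup {r | ∃ p ∈ S, ∃ q ∈ S, r = |dist p.1 q.1 - dist p.2 q.2|}

/-- Gromov–Hausdorff distance -/
noncomputable def dGH (X Y : Type) [MetricSpace X] [MetricSpace Y] : ℝ :=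
  1 / 2 * sInf {r | ∃ S : Set (X × Y), IsCorr S ∧ r = dis S}

/-- optimal correspondences -/
def Optimal {X Y : Type} [MetricSpace X] [MetricSpace Y] (S : Set (X × Y)) : Prop :=
  IsCorr S ∧ dis S = 2 * dGH X Y

/-- no relation has all three projections optimal -/
def Bad (X Y Z : Type) [MetricSpace X] [MetricSpace Y] [MetricSpace Z] : Prop :=
  ¬ ∃ R : Set (X × Y × Z), Optimal ((fun t => (t.1, t.2.1)) '' R) ∧
    Optimal ((fun t => (t.1, t.2.2)) '' R) ∧ Optimal ((fun t => (t.2.1, t.2.2)) '' R)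

@[reducible] noncomputable def mk {n : ℕ} (d : Fin n → Fin n → ℤ) (h1 : ∀ x y, d x y = 0 ↔ x = y)
    (h2 : ∀ x y, d x y = d y x) (h3 : ∀ x y z, d x z ≤ d x y + d y z) : MetricSpace (Fin n) where
  dist x y := d x y
  dist_self x := by exact_mod_cast (h1 x x).2 rfl
  dist_comm x y := by exact_mod_cast h2 x y
  dist_triangle x y z := by exact_mod_cast h3 x y z
  eq_of_dist_eq_zero h := (h1 _ _).1 (by exact_mod_cast h)

def d1 : Fin 2 → Fin 2 → ℤ := ![![0, 12], ![12, 0]]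
def d2 : Fin 4 → Fin 4 → ℤ := ![![0, 10, 11, 12], ![10, 0, 12, 8], ![11, 12, 0, 4], ![12, 8, 4, 0]]
def d3 : Fin 4 → Fin 4 → ℤ := ![![0, 11, 10, 12], ![11, 0, 12, 8], ![10, 12, 0, 4], ![12, 8, 4, 0]]

theorem opt_le {X Y : Type} [MetricSpace X] [MetricSpace Y] [Finite X] [Finite Y] (S S0 : Set (X × Y))
    (c : ℝ) (hc : 0 ≤ c) (h : Optimal S) (h0 : IsCorr S0)
    (h1 : ∀ p ∈ S0, ∀ q ∈ S0, |dist p.1 q.1 - dist p.2 q.2| ≤ c) :
    ∀ p ∈ S, ∀ q ∈ S, |dist p.1 q.1 - dist p.2 q.2| ≤ c := by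
  intro p hp q hq
  have a1 : |dist p.1 q.1 - dist p.2 q.2| ≤ dis S := by
    refine le_csSup (Set.Finite.bddAbove ((Set.finite_range (fun z : (X × Y) × (X × Y) =>
      |dist z.1.1 z.2.1 - dist z.1.2 z.2.2|)).subset ?_)) ⟨p, hp, q, hq, rfl⟩
    rintro _ ⟨p, -, q, -, rfl⟩
    exact ⟨(p, q), rfl⟩
  have a2 : dis S0 ≤ c := Real.sSup_le (by rintro _ ⟨p, hp, q, hq, rfl⟩; exact h1 p hp q hq) hc
  have a3 : sInf {r | ∃ S : Set (X × Y), IsCorr S ∧ r = dis S} ≤ dis S0 :=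
    csInf_le ⟨0, by
      rintro _ ⟨S, -, rfl⟩
      exact Real.sSup_nonneg (by rintro _ ⟨p, -, q, -, rfl⟩; exact abs_nonneg _)⟩ ⟨S0, h0, rfl⟩
  have a4 := h.2
  rw [dGH] at a4
  linarith

theorem fin_check : ∀ i0 i1 i2 i3 : Fin 2, ∀ k0 k1 k2 k3 : Fin 4,
    ¬ ∀ a b : Fin 4, |d1 (![i0, i1, i2, i3] a) (![i0, i1, i2, i3] b) - d2 a b| ≤ 10 ∧
      |d1 (![i0, i1, i2, i3] a) (![i0, i1, i2, i3] b) -
        d3 (![k0, k1, k2, k3] a) (![k0, k1, k2, k3] b)| ≤ 10 ∧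
      |d2 a b - d3 (![k0, k1, k2, k3] a) (![k0, k1, k2, k3] b)| ≤ 1 := by decide +kernel

theorem result : ∃ (X Y Z : Type) (_ : MetricSpace X) (_ : MetricSpace Y) (_ : MetricSpace Z),
    Nonempty X ∧ Nonempty Y ∧ Nonempty Z ∧ CompactSpace X ∧ CompactSpace Y ∧ CompactSpace Z ∧
      Bad X Y Z := by
  let m1 := mk d1 (by decide) (by decide) (by decide)
  let m2 := mk d2 (by decide) (by decide) (by decide)
  let m3 := mk d3 (by decide) (by decide) (by decide)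
  refine ⟨Fin 2, Fin 4, Fin 4, m1, m2, m3, inferInstance, inferInstance, inferInstance,
    @Finite.compactSpace _ (_) _, @Finite.compactSpace _ (_) _, @Finite.compactSpace _ (_) _, ?_⟩
  rintro ⟨R, h12, h13, h23⟩
  have a12 := @opt_le _ _ m1 m2 _ _ _ {p | p.1 = ![0, 0, 1, 1] p.2} 10 (by norm_num) h12
    ⟨by simp only [Set.mem_setOf_eq]; decide, fun y => ⟨_, rfl⟩⟩ (by
      intro p hp q hq
      have : ∀ p q : Fin 2 × Fin 4, p.1 = ![0, 0, 1, 1] p.2 → q.1 = ![0, 0, 1, 1] q.2 →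
        |d1 p.1 q.1 - d2 p.2 q.2| ≤ 10 := by decide
      exact (show |((d1 p.1 q.1 : ℤ) : ℝ) - (d2 p.2 q.2 : ℤ)| ≤ 10 by
        exact_mod_cast this p q hp hq))
  have a13 := @opt_le _ _ m1 m3 _ _ _ {p | p.1 = ![0, 1, 0, 1] p.2} 10 (by norm_num) h13
    ⟨by simp only [Set.mem_setOf_eq]; decide, fun y => ⟨_, rfl⟩⟩ (by
      intro p hp q hq
      have : ∀ p q : Fin 2 × Fin 4, p.1 = ![0, 1, 0, 1] p.2 → q.1 = ![0, 1, 0, 1] q.2 →
        |d1 p.1 q.1 - d3 p.2 q.2| ≤ 10 := by decide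
      exact (show |((d1 p.1 q.1 : ℤ) : ℝ) - (d3 p.2 q.2 : ℤ)| ≤ 10 by
        exact_mod_cast this p q hp hq))
  have a23 := @opt_le _ _ m2 m3 _ _ _ {p | p.1 = p.2} 1 (by norm_num) h23
    ⟨fun y => ⟨_, rfl⟩, fun y => ⟨_, rfl⟩⟩ (by
      intro p hp q hq
      have : ∀ p q : Fin 4 × Fin 4, p.1 = p.2 → q.1 = q.2 →
        |d2 p.1 q.1 - d3 p.2 q.2| ≤ 1 := by decide
      exact (show |((d2 p.1 q.1 : ℤ) : ℝ) - (d3 p.2 q.2 : ℤ)| ≤ 1 by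
        exact_mod_cast this p q hp hq))
  have hs : ∀ a : Fin 4, ∃ i k, (i, a, k) ∈ R := fun a => by
    obtain ⟨k, ⟨i, a', k'⟩, ht, he⟩ := h23.1.1 a
    obtain ⟨rfl, rfl⟩ := Prod.mk.inj he
    exact ⟨i, _, ht⟩
  choose i k hR using hs
  refine fin_check (i 0) (i 1) (i 2) (i 3) (k 0) (k 1) (k 2) (k 3) (fun a b => ?_)
  have ei : ![i 0, i 1, i 2, i 3] = i := by ext a; fin_cases a <;> rfl
  have ek : ![k 0, k 1, k 2, k 3] = k := by ext a; fin_cases a <;> rfl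
  rw [ei, ek]
  have b1 : |((d1 (i a) (i b) : ℤ) : ℝ) - (d2 a b : ℤ)| ≤ 10 :=
    a12 _ ⟨_, hR a, rfl⟩ _ ⟨_, hR b, rfl⟩
  have b2 : |((d1 (i a) (i b) : ℤ) : ℝ) - (d3 (k a) (k b) : ℤ)| ≤ 10 :=
    a13 _ ⟨_, hR a, rfl⟩ _ ⟨_, hR b, rfl⟩
  have b3 : |((d2 a b : ℤ) : ℝ) - (d3 (k a) (k b) : ℤ)| ≤ 1 :=
    a23 _ ⟨_, hR a, rfl⟩ _ ⟨_, hR b, rfl⟩
  exact ⟨by exact_mod_cast b1, by exact_mod_cast b2, by exact_mod_cast b3⟩

end Pool.Agent.Results.MP_029391_gt.Triple
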